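import Pool.Agent.Helper52.Grimm.Count

/-!
# Asymptotics
-/

set_option autoImplicit false

namespace Pool.Agent.Helper52.Grimm

open Filter Topology

/-- `√(t log t)` -/
noncomputable def LL (t : ℝ) : ℝ := √(t * Real.log t)

theorem LL_tendsto : Tendsto LL atTop atTop := by
  unfold LL
  exact Real.tendsto_sqrt_atTop.comp (tendsto_id.atTop_mul_atTop₀ Real.tendsto_log_atTop)

theorem LL_le {η : ℝ} (hη : 0 < η) : ∀ᶠ t : ℝ in atTop, LL t ≤ η * t := by
  have h1 := (Real.isLittleO_log_id_atTop).def (c := η ^ 2) (by positivity)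
  filter_upwards [h1, eventually_ge_atTop (1 : ℝ)] with t h2 h3
  unfold LL
  have h4 : Real.log t ≤ η ^ 2 * t := by
    have := (Real.norm_eq_abs _ ▸ h2)
    simp only [id, Real.norm_eq_abs] at this
    rw [abs_of_nonneg (show (0:ℝ) ≤ t by linarith)] at this
    exact (le_abs_self _).trans this
  rw [Real.sqrt_le_left (by positivity)]
  nlinarith

theorem log_small {δ : ℝ} (hδ : 0 < δ) : ∀ᶠ t : ℝ in atTop,
    1 / 2 * Real.log (Real.log t) + 1 + Real.log (2 * Real.log t) ≤ δ * Real.log t := by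
  have h1 : ∀ᶠ s : ℝ in atTop, 1 / 2 * Real.log s + 1 + Real.log (2 * s) ≤ δ * s := by
    have h1 := (Real.isLittleO_log_id_atTop).def (c := δ / 3) (by positivity)
    filter_upwards [h1, eventually_ge_atTop (4 / δ), eventually_ge_atTop (1 : ℝ)] with s h2 h3 h4
    have h5 : Real.log s ≤ δ / 3 * s := by
      simp only [id, Real.norm_eq_abs] at h2
      rw [abs_of_nonneg (show (0:ℝ) ≤ s by linarith)] at h2
      exact (le_abs_self _).trans h2
    have h6 : Real.log (2 * s) = Real.log 2 + Real.log s :=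
      Real.log_mul two_ne_zero (by linarith)
    have h7 := Real.log_two_lt_d9
    have h8 : 4 ≤ δ * s := by
      rw [div_le_iff₀ hδ] at h3
      linarith
    rw [h6]
    linarith
  exact Real.tendsto_log_atTop.eventually h1

theorem pow_div_factorial_le {P r : ℝ} {n : ℕ} (hP : 0 ≤ P) (hr : r = n) (hn : 0 < n) :
    P ^ n / (n.factorial : ℝ) ≤ (P * Real.exp 1 / r) ^ n := by
  have h1 := Real.pow_div_factorial_le_exp (n : ℝ) (Nat.cast_nonneg n) n
  have hn' : (0 : ℝ) < n := by exact_mod_cast hn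
  have hf : (0 : ℝ) < (n.factorial : ℝ) := by exact_mod_cast Nat.factorial_pos n
  rw [hr, div_pow, mul_pow, ← Real.exp_nat_mul, mul_one]
  rw [div_le_iff₀ hf] at h1
  rw [div_le_div_iff₀ hf (by positivity)]
  calc P ^ n * (n : ℝ) ^ n ≤ P ^ n * (Real.exp n * (n.factorial : ℝ)) := by gcongr
    _ = P ^ n * Real.exp n * (n.factorial : ℝ) := by ring

theorem main_bound {ε : ℝ} (hε : 0 < ε) : ∀ᶠ x : ℝ in atTop,
    ((fails ⌊x⌋₊).card : ℝ) ≤
      x * Real.exp (-(1 / √2 - ε) * √(Real.log x * Real.log (Real.log x))) := by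
  set c : ℝ := 1 / √2 with hc
  have hs2 : (0 : ℝ) < √2 := by positivity
  have hc0 : 0 < c := by positivity
  have hcc : 2 * (c * c) = 1 := by
    rw [hc]
    have := Real.mul_self_sqrt (show (0 : ℝ) ≤ 2 by norm_num)
    field_simp
    linarith [sq (√2)]
  have hc1 : c ≤ 3 / 4 := by
    by_contra h
    push Not at h
    have := mul_lt_mul'' h h (by norm_num) (by norm_num)
    linarith
  set δ : ℝ := min (ε / 10) (1 / 12) with hδ
  have hδ0 : 0 < δ := by rw [hδ]; positivity
  have hδ1 : δ ≤ ε / 10 := min_le_left _ _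
  have hδ2 : δ ≤ 1 / 12 := min_le_right _ _
  have ev : ∀ᶠ t : ℝ in atTop, 5 ≤ Real.log t ∧ LL t ≤ δ / 2 * t ∧ Real.log 2 ≤ δ * c * LL t ∧
      (1 / 2 * Real.log (Real.log t) + 1 + Real.log (2 * Real.log t) ≤ δ * Real.log t) ∧
      Real.log 8 ≤ ε / 2 * LL t ∧ Real.log 4 ≤ LL t := by
    have hL := LL_tendsto
    filter_upwards [Real.tendsto_log_atTop.eventually_ge_atTop 5, LL_le (half_pos hδ0),
      hL.eventually_ge_atTop (Real.log 2 / (δ * c)), log_small hδ0,
      hL.eventually_ge_atTop (Real.log 8 / (ε / 2)), hL.eventually_ge_atTop (Real.log 4)]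
      with t h1 h2 h3 h4 h5 h6
    refine ⟨h1, h2, ?_, h4, ?_, h6⟩
    · rw [div_le_iff₀ (by positivity)] at h3
      linarith
    · rw [div_le_iff₀ (by positivity)] at h5
      linarith
  filter_upwards [Real.tendsto_log_atTop.eventually ev, eventually_ge_atTop (4 : ℝ)]
    with x hx hx4
  obtain ⟨hs5, hLt, hL2, hsm, hL8, hL4⟩ := hx
  have hLdef : √(Real.log x * Real.log (Real.log x)) = LL (Real.log x) := rfl
  rw [hLdef]
  set t := Real.log x with ht
  set s := Real.log t with hs
  set L := LL t with hL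
  have hx0 : 0 < x := by linarith
  have ht0 : 0 < t := by
    by_contra h
    push Not at h
    have h1 : Real.log 4 ≤ t := Real.log_le_log (by norm_num) hx4
    have h2 : 0 < Real.log 4 := Real.log_pos (by norm_num)
    linarith
  have hs0 : 0 < s := by linarith
  have hts : L ^ 2 = t * s := by
    rw [hL]
    unfold LL
    exact Real.sq_sqrt (by positivity)
  have hL0 : 0 < L := lt_of_lt_of_le (Real.log_pos (by norm_num)) hL4
  have hexpt : Real.exp t = x := Real.exp_log hx0
  -- the cut off `K`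
  set K : ℕ := ⌈Real.exp (c * L)⌉₊ with hK
  have hK1 : Real.exp (c * L) ≤ K := Nat.le_ceil _
  have hcL : 0 < c * L := by positivity
  have hcL34 : c * L ≤ 3 / 4 * L := mul_le_mul_of_nonneg_right hc1 hL0.le
  have hK2 : (K : ℝ) ≤ Real.exp (c * L + Real.log 2) := by
    have h1 : (K : ℝ) < Real.exp (c * L) + 1 := Nat.ceil_lt_add_one (Real.exp_pos _).le
    have h2 : (1 : ℝ) ≤ Real.exp (c * L) := Real.one_le_exp hcL.le
    rw [Real.exp_add, Real.exp_log two_pos]
    linarith
  have hK3 : 1 < K := by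
    have : (1 : ℝ) < K := lt_of_lt_of_le (Real.one_lt_exp_iff.mpr hcL) hK1
    exact_mod_cast this
  -- the number `r` of prime factors
  have hD : 0 < c * L + Real.log 2 := by
    have := Real.log_pos (show (1 : ℝ) < 2 by norm_num)
    linarith
  set r : ℕ := ⌊(1 - δ) * t / (c * L + Real.log 2)⌋₊ with hr
  have hnum : 0 ≤ (1 - δ) * t / (c * L + Real.log 2) := by
    apply div_nonneg _ hD.le
    apply mul_nonneg _ ht0.le
    linarith
  have hr1 : (r : ℝ) * (c * L + Real.log 2) ≤ (1 - δ) * t := by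
    have := Nat.floor_le hnum
    rwa [le_div_iff₀ hD] at this
  have hr2 : (1 - δ) * t / (c * L + Real.log 2) < r + 1 := Nat.lt_floor_add_one _
  set u : ℝ := t / (c * L) with hu
  have hu0 : 0 < u := by positivity
  have hucL : u * (c * L) = t := by rw [hu]; field_simp
  have h1u : 1 ≤ δ * u := by
    rw [hu, ← mul_div_assoc, le_div_iff₀ hcL]
    linarith [hcL34, mul_pos hδ0 ht0]
  have hr3 : (1 - 3 * δ) * u ≤ r := by
    have h1 : (1 - 2 * δ) * u ≤ (1 - δ) * t / (c * L + Real.log 2) := by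
      rw [le_div_iff₀ hD]
      have h2 : c * L + Real.log 2 ≤ (1 + δ) * (c * L) := by
        linarith
      have h3 : 0 ≤ (1 - 2 * δ) * u := mul_nonneg (by linarith) hu0.le
      calc (1 - 2 * δ) * u * (c * L + Real.log 2) ≤ (1 - 2 * δ) * u * ((1 + δ) * (c * L)) :=
            mul_le_mul_of_nonneg_left h2 h3
        _ = (1 - 2 * δ) * (1 + δ) * (u * (c * L)) := by ring
        _ = (1 - δ - 2 * δ ^ 2) * t := by rw [hucL]; ring
        _ ≤ (1 - δ) * t := by
            apply mul_le_mul_of_nonneg_right _ ht0.le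
            linarith [mul_pos hδ0 hδ0, sq δ]
    linarith
  have hr4 : t / L ≤ r := by
    refine le_trans ?_ hr3
    rw [div_le_iff₀ hL0]
    have e : (1 - 3 * δ) * u * L = (1 - 3 * δ) / c * t := by
      rw [← hucL]; field_simp
    rw [e]
    have h1 : 1 ≤ (1 - 3 * δ) / c := by
      rw [le_div_iff₀ hc0]; linarith
    exact le_mul_of_one_le_left ht0.le h1
  have htL : 0 < t / L := by positivity
  have hr0 : (0 : ℝ) < r := lt_of_lt_of_le htL hr4
  have hrn : 0 < r := by exact_mod_cast hr0
  have hlogr : (s - Real.log s) / 2 ≤ Real.log r := by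
    have h1 : Real.log (t / L) ≤ Real.log r := Real.log_le_log htL hr4
    have h2 : Real.log (L ^ 2) = s + Real.log s := by
      rw [hts, Real.log_mul ht0.ne' hs0.ne']
    rw [Real.log_pow] at h2
    rw [Real.log_div ht0.ne' hL0.ne'] at h1
    push_cast at h2
    linarith
  -- sizes
  set X : ℕ := ⌊x⌋₊ with hX
  have hXx : (X : ℝ) ≤ x := Nat.floor_le hx0.le
  have hX4 : 4 ≤ X := Nat.le_floor (by exact_mod_cast hx4)
  have hX4' : (4 : ℝ) ≤ X := by exact_mod_cast hX4
  -- `P`
  set P : ℝ := Real.log (Real.log ((2 * X : ℕ) : ℝ)) + 3.4 with hP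
  have hl1 : 1 ≤ Real.log ((2 * X : ℕ) : ℝ) := by
    rw [Real.le_log_iff_exp_le (by positivity)]
    have := Real.exp_one_lt_d9
    push_cast
    linarith
  have hl2 : Real.log ((2 * X : ℕ) : ℝ) ≤ 2 * t := by
    have h1 : ((2 * X : ℕ) : ℝ) ≤ x ^ 2 := by
      push_cast
      have := mul_le_mul_of_nonneg_right hx4 hx0.le
      linarith [sq x]
    have h2 := Real.log_le_log (by positivity) h1
    rw [Real.log_pow] at h2
    exact_mod_cast h2
  have hP0 : 0 ≤ P := by
    have := Real.log_nonneg hl1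
    rw [hP]
    linarith
  have hP2 : P ≤ 2 * s := by
    have h1 : Real.log (Real.log ((2 * X : ℕ) : ℝ)) ≤ Real.log (2 * t) :=
      Real.log_le_log (by linarith) hl2
    rw [Real.log_mul two_ne_zero ht0.ne'] at h1
    have h2 := Real.log_two_lt_d9
    rw [hP]
    linarith
  -- main count
  have hcount := card_fails_le (X := X) hK3
  have hps := card_powersmooth_le (X := X) (K := K) (r := r) (y := K ^ r) (by omega) hK3 le_rfl
  rw [← hP] at hps
  -- term 1
  have t1 : 2 * (X : ℝ) / K ≤ x * Real.exp (-(c - ε) * L) / 4 := by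
    have hK0 : (0 : ℝ) < K := lt_of_lt_of_le (Real.exp_pos _) hK1
    have h1 : 2 * (X : ℝ) / K ≤ 2 * x * Real.exp (-(c * L)) := by
      rw [div_le_iff₀ hK0]
      have h2 : Real.exp (-(c * L)) * K ≥ 1 := by
        calc Real.exp (-(c * L)) * K ≥ Real.exp (-(c * L)) * Real.exp (c * L) :=
              mul_le_mul_of_nonneg_left hK1 (Real.exp_pos _).le
          _ = 1 := by rw [← Real.exp_add]; simp
      have h3 := mul_le_mul_of_nonneg_left h2 (show (0 : ℝ) ≤ 2 * x by linarith)
      linarith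
    have h3 : 8 * Real.exp (-(c * L)) ≤ Real.exp (-(c - ε) * L) := by
      have h4 : (8 : ℝ) = Real.exp (Real.log 8) := (Real.exp_log (by norm_num)).symm
      rw [h4, ← Real.exp_add]
      apply Real.exp_le_exp.mpr
      linarith [mul_pos hε hL0]
    have h5 := mul_le_mul_of_nonneg_left h3 hx0.le
    linarith
  -- term 2
  have t2 : ((K ^ r : ℕ) : ℝ) ≤ x * Real.exp (-(c - ε) * L) / 4 := by
    have h1 : ((K ^ r : ℕ) : ℝ) ≤ Real.exp ((1 - δ) * t) := by
      push_cast
      calc (K : ℝ) ^ r ≤ Real.exp (c * L + Real.log 2) ^ r :=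
            pow_le_pow_left₀ (Nat.cast_nonneg _) hK2 r
        _ = Real.exp (r * (c * L + Real.log 2)) := (Real.exp_nat_mul _ _).symm
        _ ≤ Real.exp ((1 - δ) * t) := Real.exp_le_exp.mpr hr1
    have h2 : Real.exp ((1 - δ) * t) = x * Real.exp (-(δ * t)) := by
      rw [← hexpt, ← Real.exp_add]
      congr 1
      ring
    have h3 : 4 * Real.exp (-(δ * t)) ≤ Real.exp (-(c - ε) * L) := by
      have h4 : (4 : ℝ) = Real.exp (Real.log 4) := (Real.exp_log (by norm_num)).symm
      rw [h4, ← Real.exp_add]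
      apply Real.exp_le_exp.mpr
      linarith [mul_pos hε hL0, hcL34]
    rw [h2] at h1
    have h5 := mul_le_mul_of_nonneg_left h3 hx0.le
    linarith
  -- term 3
  have t3 : 2 * (X : ℝ) * (P ^ r / (r.factorial : ℝ)) ≤ x * Real.exp (-(c - ε) * L) / 4 := by
    have h1 : P ^ r / (r.factorial : ℝ) ≤ Real.exp (-((1 / 2 - δ) * s * r)) := by
      calc P ^ r / (r.factorial : ℝ) ≤ (2 * s) ^ r / (r.factorial : ℝ) := by gcongr
        _ ≤ (2 * s * Real.exp 1 / r) ^ r :=
            pow_div_factorial_le (by positivity) rfl hrn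
        _ = Real.exp (r * (Real.log (2 * s) + 1 - Real.log r)) := by
            rw [Real.exp_nat_mul, Real.exp_sub, Real.exp_add, Real.exp_log (by positivity),
              Real.exp_log hr0]
        _ ≤ Real.exp (-((1 / 2 - δ) * s * r)) := by
            apply Real.exp_le_exp.mpr
            have h2 : Real.log (2 * s) + 1 - Real.log r ≤ -((1 / 2 - δ) * s) := by
              linarith
            have h3 := mul_le_mul_of_nonneg_left h2 hr0.le
            linarith
    have h2 : (1 - 5 * δ) * (c * L) ≤ (1 / 2 - δ) * s * r := by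
      have h3 : (1 / 2 - δ) * s * ((1 - 3 * δ) * u) ≤ (1 / 2 - δ) * s * r :=
        mul_le_mul_of_nonneg_left hr3 (mul_nonneg (by linarith) hs0.le)
      have h4 : s * u = 2 * (c * L) := by
        have h5 : s * u * (c * L) = 2 * (c * L) * (c * L) := by
          calc s * u * (c * L) = s * (u * (c * L)) := by ring
            _ = L ^ 2 := by rw [hucL, hts]; ring
            _ = 2 * (c * c) * L ^ 2 := by rw [hcc]; ring
            _ = 2 * (c * L) * (c * L) := by ring
        exact mul_right_cancel₀ hcL.ne' h5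
      have h6 : (1 / 2 - δ) * s * ((1 - 3 * δ) * u) = (1 - 2 * δ) * (1 - 3 * δ) * (c * L) := by
        calc (1 / 2 - δ) * s * ((1 - 3 * δ) * u) = (1 / 2 - δ) * (1 - 3 * δ) * (s * u) := by ring
          _ = (1 - 2 * δ) * (1 - 3 * δ) * (c * L) := by rw [h4]; ring
      rw [h6] at h3
      refine le_trans ?_ h3
      apply mul_le_mul_of_nonneg_right _ hcL.le
      linarith [mul_pos hδ0 hδ0]
    have h3 : P ^ r / (r.factorial : ℝ) ≤ Real.exp (-((1 - 5 * δ) * (c * L))) :=
      h1.trans (Real.exp_le_exp.mpr (by linarith))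
    have h4 : 8 * Real.exp (-((1 - 5 * δ) * (c * L))) ≤ Real.exp (-(c - ε) * L) := by
      have h5 : (8 : ℝ) = Real.exp (Real.log 8) := (Real.exp_log (by norm_num)).symm
      rw [h5, ← Real.exp_add]
      apply Real.exp_le_exp.mpr
      have h6 : 5 * δ * (c * L) ≤ ε / 2 * L := by
        have h7 : δ * c ≤ ε / 10 * 1 := mul_le_mul hδ1 (by linarith) hc0.le (by linarith)
        have h8 := mul_le_mul_of_nonneg_right h7 hL0.le
        linarith
      linarith
    have h5 : 0 ≤ P ^ r / (r.factorial : ℝ) := by positivity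
    have h6 : 0 < Real.exp (-((1 - 5 * δ) * (c * L))) := Real.exp_pos _
    calc 2 * (X : ℝ) * (P ^ r / (r.factorial : ℝ))
        ≤ 2 * x * Real.exp (-((1 - 5 * δ) * (c * L))) := by
          apply mul_le_mul _ h3 h5 (by positivity)
          linarith
      _ ≤ x * Real.exp (-(c - ε) * L) / 4 := by
          have h7 := mul_le_mul_of_nonneg_left h4 hx0.le
          linarith
  have hfin : 0 < x * Real.exp (-(c - ε) * L) := by positivity
  linarith

end Pool.Agent.Helper52.Grimm
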