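import Mathlib

/-!
# Grimm assignments: the combinatorial part

`exists_powersmooth`: if `n, ..., n+k-1` have no Grimm assignment and `k ≤ K`, then some member `m`
has all its prime powers smaller than `K`, hence `m ≤ K ^ ω(m)`.
-/

set_option autoImplicit false

namespace Pool.Agent.Helper52.Grimm

open Finset

/-- The integers `n, n+1, ..., n+k-1` have a Grimm assignment. -/
def Assign (n k : ℕ) : Prop :=
  ∃ p : Fin k → ℕ, Function.Injective p ∧ ∀ i : Fin k, (p i).Prime ∧ p i ∣ n + (i : ℕ)

theorem assign_of_large {n k K : ℕ} (hn : 1 ≤ n) (hkK : k ≤ K) (hK : 1 < K)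
    (h : ∀ i < k, ∃ p, K ≤ p ^ (n + i).factorization p) : Assign n k := by
  classical
  have hall : ∀ s : Finset (Fin k),
      s.card ≤ (s.biUnion (fun i : Fin k => (n + (i : ℕ)).primeFactors)).card := by
    intro S
    by_contra hlt
    push Not at hlt
    have hS : S.Nonempty := by
      rw [Finset.nonempty_iff_ne_empty]
      rintro rfl
      simp at hlt
    have hmax : ∀ p : ℕ, ∃ i ∈ S, ∀ j ∈ S,
        (n + (j : ℕ)).factorization p ≤ (n + (i : ℕ)).factorization p := by
      intro p
      exact Finset.exists_max_image S (fun i : Fin k => (n + (i : ℕ)).factorization p) hS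
    choose g hgS hg using hmax
    set N := S.biUnion (fun i : Fin k => (n + (i : ℕ)).primeFactors) with hN
    have hcard : (N.image g).card < S.card := lt_of_le_of_lt Finset.card_image_le hlt
    obtain ⟨i, hiS, hi⟩ := Finset.exists_mem_notMem_of_card_lt_card hcard
    obtain ⟨p, hp⟩ := h i i.2
    have hv : (n + (i : ℕ)).factorization p ≠ 0 := by
      intro h0
      rw [h0, pow_zero] at hp
      omega
    have hpm : p ∈ (n + (i : ℕ)).primeFactors := by
      rw [← Nat.support_factorization]
      exact Finsupp.mem_support_iff.mpr hv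
    have hpN : p ∈ N := Finset.mem_biUnion.mpr ⟨i, hiS, hpm⟩
    have hne : g p ≠ i := by
      intro e
      exact hi (Finset.mem_image.mpr ⟨p, hpN, e⟩)
    have hpp : p.Prime := Nat.prime_of_mem_primeFactors hpm
    set v := (n + (i : ℕ)).factorization p with hvdef
    have d1 : p ^ v ∣ n + (i : ℕ) := Nat.ordProj_dvd _ _
    have d2 : p ^ v ∣ n + (g p : ℕ) :=
      (pow_dvd_pow p (hg p i hiS)).trans (Nat.ordProj_dvd _ _)
    have hne' : (g p : ℕ) ≠ (i : ℕ) := fun e => hne (Fin.ext e)
    rcases lt_or_gt_of_ne hne' with hlt' | hlt'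
    · have d3 : p ^ v ∣ (n + (i : ℕ)) - (n + (g p : ℕ)) := Nat.dvd_sub d1 d2
      have := Nat.le_of_dvd (by omega) d3
      have h1 := i.2
      omega
    · have d3 : p ^ v ∣ (n + (g p : ℕ)) - (n + (i : ℕ)) := Nat.dvd_sub d2 d1
      have := Nat.le_of_dvd (by omega) d3
      have h1 := (g p).2
      omega
  obtain ⟨f, hf, hft⟩ := (Finset.all_card_le_biUnion_card_iff_exists_injective
    (fun i : Fin k => (n + (i : ℕ)).primeFactors)).mp hall
  exact ⟨f, hf, fun i => ⟨Nat.prime_of_mem_primeFactors (hft i),
    Nat.dvd_of_mem_primeFactors (hft i)⟩⟩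

theorem exists_powersmooth {n k K : ℕ} (hn : 1 ≤ n) (hkK : k ≤ K) (hK : 1 < K)
    (h : ¬ Assign n k) : ∃ i < k, n + i ≤ K ^ (n + i).primeFactors.card := by
  by_contra hcon
  push Not at hcon
  apply h
  apply assign_of_large hn hkK hK
  intro i hi
  by_contra hc
  push Not at hc
  have h1 := hcon i hi
  have h2 : n + i ≤ K ^ (n + i).primeFactors.card := by
    calc n + i = ∏ p ∈ (n + i).primeFactors, p ^ (n + i).factorization p :=
          (Nat.prod_factorization_pow_eq_self (by omega)).symm
      _ ≤ ∏ p ∈ (n + i).primeFactors, K :=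
          Finset.prod_le_prod' (fun p _ => (hc p).le)
      _ = K ^ (n + i).primeFactors.card := Finset.prod_const _
  omega

/-- a part of a run with a Grimm assignment has one -/
theorem Assign.sub {n k n' k' : ℕ} (h : Assign n k) (h1 : n ≤ n') (h2 : n' + k' ≤ n + k) :
    Assign n' k' := by
  obtain ⟨p, hp, hpd⟩ := h
  refine ⟨fun i => p ⟨n' - n + i, by have := i.2; omega⟩, ?_, ?_⟩
  · intro i j hij
    have := hp hij
    simp only [Fin.mk.injEq] at this
    exact Fin.ext (by omega)
  · intro i
    obtain ⟨h3, h4⟩ := hpd ⟨n' - n + i, by have := i.2; omega⟩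
    refine ⟨h3, ?_⟩
    have e : n + (n' - n + (i : ℕ)) = n' + i := by omega
    simpa [e] using h4

end Pool.Agent.Helper52.Grimm
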