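import Mathlib
import Pool.Agent.Helper24.Mertens

/-!
# Integers with many prime factors
-/

set_option autoImplicit false

namespace Pool.Agent.Helper52.Grimm

open Finset

theorem pow_step {S a : ℝ} (hS : 0 ≤ S) (ha : 0 ≤ a) (r : ℕ) :
    S ^ (r + 1) + ((r : ℝ) + 1) * (a * S ^ r) ≤ (S + a) ^ (r + 1) := by
  induction r with
  | zero => simp
  | succ r ih =>
    have h1 : (S + a) ^ (r + 1 + 1) = (S + a) * (S + a) ^ (r + 1) := by ring
    rw [h1]
    have h2 := mul_le_mul_of_nonneg_left ih (add_nonneg hS ha)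
    refine le_trans ?_ h2
    have h3 : 0 ≤ ((r : ℝ) + 1) * (a * a * S ^ r) := by positivity
    have h5 : (S + a) * (S ^ (r + 1) + ((r : ℝ) + 1) * (a * S ^ r))
        = S ^ (r + 1 + 1) + ((r : ℝ) + 1 + 1) * (a * S ^ (r + 1))
          + ((r : ℝ) + 1) * (a * a * S ^ r) := by ring
    rw [h5]
    push_cast
    linarith

/-- elementary symmetric sums -/
theorem esymm_le (a : ℕ → ℝ) (s : Finset ℕ) (ha : ∀ i ∈ s, 0 ≤ a i) (r : ℕ) :
    ∑ T ∈ s.powersetCard r, ∏ i ∈ T, a i ≤ (∑ i ∈ s, a i) ^ r / (r.factorial : ℝ) := by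
  classical
  induction s using Finset.induction_on generalizing r with
  | empty =>
    cases r with
    | zero => simp
    | succ r =>
      rw [Finset.powersetCard_eq_empty.mpr (by simp)]
      simp
  | insert x s hx ih =>
    have ha' : ∀ i ∈ s, 0 ≤ a i := fun i hi => ha i (Finset.mem_insert_of_mem hi)
    have hax : 0 ≤ a x := ha x (Finset.mem_insert_self _ _)
    cases r with
    | zero => simp
    | succ r =>
      rw [Finset.powersetCard_succ_insert hx, Finset.sum_union, Finset.sum_image]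
      · have h1 : ∀ T ∈ s.powersetCard r, ∏ i ∈ insert x T, a i = a x * ∏ i ∈ T, a i := by
          intro T hT
          rw [Finset.prod_insert]
          intro hxT
          exact hx ((Finset.mem_powersetCard.mp hT).1 hxT)
        rw [Finset.sum_congr rfl h1, ← Finset.mul_sum, Finset.sum_insert hx]
        set S := ∑ i ∈ s, a i with hS
        have hS0 : 0 ≤ S := Finset.sum_nonneg ha'
        have i1 := ih ha' (r + 1)
        have i2 := ih ha' r
        have h2 : a x * ∑ T ∈ s.powersetCard r, ∏ i ∈ T, a i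
            ≤ a x * (S ^ r / (r.factorial : ℝ)) := mul_le_mul_of_nonneg_left i2 hax
        have hf : (0 : ℝ) < ((r + 1).factorial : ℝ) := by exact_mod_cast Nat.factorial_pos _
        have hf0 : (0 : ℝ) < (r.factorial : ℝ) := by exact_mod_cast Nat.factorial_pos _
        have hff : ((r + 1).factorial : ℝ) = ((r : ℝ) + 1) * (r.factorial : ℝ) := by
          rw [Nat.factorial_succ]; push_cast; ring
        have h3 : S ^ (r + 1) / ((r + 1).factorial : ℝ) + a x * (S ^ r / (r.factorial : ℝ))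
            = (S ^ (r + 1) + ((r : ℝ) + 1) * (a x * S ^ r)) / ((r + 1).factorial : ℝ) := by
          rw [hff]
          field_simp
        have h4 : S ^ (r + 1) + ((r : ℝ) + 1) * (a x * S ^ r) ≤ (a x + S) ^ (r + 1) := by
          rw [add_comm (a x) S]
          exact pow_step hS0 hax r
        calc _ ≤ S ^ (r + 1) / ((r + 1).factorial : ℝ) + a x * (S ^ r / (r.factorial : ℝ)) :=
              add_le_add i1 h2
          _ = (S ^ (r + 1) + ((r : ℝ) + 1) * (a x * S ^ r)) / ((r + 1).factorial : ℝ) := h3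
          _ ≤ (a x + S) ^ (r + 1) / ((r + 1).factorial : ℝ) := by gcongr
      · intro T1 hT1 T2 hT2 h
        have m1 : x ∉ T1 := fun hxT => hx ((Finset.mem_powersetCard.mp hT1).1 hxT)
        have m2 : x ∉ T2 := fun hxT => hx ((Finset.mem_powersetCard.mp hT2).1 hxT)
        rw [← Finset.erase_insert m1, ← Finset.erase_insert m2, h]
      · rw [Finset.disjoint_left]
        intro T hT hT'
        obtain ⟨T', hT', rfl⟩ := Finset.mem_image.mp hT'
        exact hx ((Finset.mem_powersetCard.mp hT).1 (Finset.mem_insert_self _ _))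

theorem card_omega_ge {X : ℕ} (hX : 2 ≤ X) (r : ℕ) :
    (((Finset.Ioc 0 X).filter (fun m => r ≤ m.primeFactors.card)).card : ℝ) ≤
      X * ((Real.log (Real.log X) + 3.4) ^ r / (r.factorial : ℝ)) := by
  classical
  have hsub : (Finset.Ioc 0 X).filter (fun m => r ≤ m.primeFactors.card) ⊆
      ((Nat.primesLE X).powersetCard r).biUnion
        (fun T => (Finset.Ioc 0 X).filter (fun m => (∏ i ∈ T, i) ∣ m)) := by
    intro m hm
    rw [Finset.mem_filter, Finset.mem_Ioc] at hm
    obtain ⟨⟨hm0, hmX⟩, hr⟩ := hm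
    obtain ⟨T, hT, hTc⟩ := Finset.exists_subset_card_eq hr
    rw [Finset.mem_biUnion]
    refine ⟨T, Finset.mem_powersetCard.mpr ⟨?_, hTc⟩, ?_⟩
    · intro p hp
      have hp' := hT hp
      rw [Nat.mem_primesLE]
      exact ⟨(Nat.le_of_mem_primeFactors hp').trans hmX, Nat.prime_of_mem_primeFactors hp'⟩
    · rw [Finset.mem_filter, Finset.mem_Ioc]
      exact ⟨⟨hm0, hmX⟩, (Finset.prod_dvd_prod_of_subset _ _ _ hT).trans
        (Nat.prod_primeFactors_dvd m)⟩
  have h1 : (((Finset.Ioc 0 X).filter (fun m => r ≤ m.primeFactors.card)).card : ℝ) ≤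
      ∑ T ∈ (Nat.primesLE X).powersetCard r,
        (((Finset.Ioc 0 X).filter (fun m => (∏ i ∈ T, i) ∣ m)).card : ℝ) := by
    have := (Finset.card_le_card hsub).trans Finset.card_biUnion_le
    exact_mod_cast this
  have h2 : ∀ T ∈ (Nat.primesLE X).powersetCard r,
      (((Finset.Ioc 0 X).filter (fun m => (∏ i ∈ T, i) ∣ m)).card : ℝ)
        ≤ X * ∏ i ∈ T, (1 / (i : ℝ)) := by
    intro T hT
    rw [Nat.Ioc_filter_dvd_card_eq_div]
    have h3 : ∏ i ∈ T, (1 / (i : ℝ)) = 1 / ((∏ i ∈ T, i : ℕ) : ℝ) := by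
      rw [Finset.prod_div_distrib, Finset.prod_const_one]
      push_cast
      rfl
    rw [h3, mul_one_div]
    exact Nat.cast_div_le
  have hlog : 0 ≤ ∑ p ∈ Nat.primesLE X, 1 / (p : ℝ) :=
    Finset.sum_nonneg (fun p _ => by positivity)
  calc (((Finset.Ioc 0 X).filter (fun m => r ≤ m.primeFactors.card)).card : ℝ)
      ≤ ∑ T ∈ (Nat.primesLE X).powersetCard r, X * ∏ i ∈ T, (1 / (i : ℝ)) :=
        h1.trans (Finset.sum_le_sum h2)
    _ = X * ∑ T ∈ (Nat.primesLE X).powersetCard r, ∏ i ∈ T, (1 / (i : ℝ)) :=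
        (Finset.mul_sum _ _ _).symm
    _ ≤ X * ((∑ p ∈ Nat.primesLE X, 1 / (p : ℝ)) ^ r / (r.factorial : ℝ)) := by
        gcongr
        exact esymm_le _ _ (fun i _ => by positivity) r
    _ ≤ X * ((Real.log (Real.log X) + 3.4) ^ r / (r.factorial : ℝ)) := by
        gcongr
        exact Pool.Agent.Helper24.sum_inv_primes_le X hX

end Pool.Agent.Helper52.Grimm
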