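import Pool.Agent.Helper52.Grimm.Comb
import Pool.Agent.Helper52.Grimm.Omega

/-!
# Counting maximal composite runs without a Grimm assignment
-/

set_option autoImplicit false

namespace Pool.Agent.Helper52.Grimm

open Finset

/-- `n, ..., n+k-1` is a maximal composite run -/
def MaxRun (n k : ℕ) : Prop :=
  1 ≤ k ∧ (∀ i < k, 1 < n + i ∧ ¬ (n + i).Prime) ∧ (n - 1).Prime ∧ (n + k).Prime

theorem MaxRun.le_two_mul {n k : ℕ} (h : MaxRun n k) : n + k ≤ 2 * n := by
  obtain ⟨hk, hc, hp, hq⟩ := h
  have hn : n - 1 ≠ 0 := hp.ne_zero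
  obtain ⟨p, hp1, hp2, hp3⟩ := Nat.exists_prime_lt_and_le_two_mul (n - 1) hn
  by_contra hlt
  have h1 : n ≤ p := by omega
  have h2 : p - n < k := by omega
  have := (hc (p - n) h2).2
  apply this
  have e : n + (p - n) = p := by omega
  rwa [e]

theorem MaxRun.disj {n k n' k' : ℕ} (h : MaxRun n k) (h' : MaxRun n' k') (hlt : n < n') :
    n + k < n' := by
  obtain ⟨hk, hc, hp, hq⟩ := h
  obtain ⟨hk', hc', hp', hq'⟩ := h'
  by_contra hge
  push Not at hge
  -- `n' - 1` is a prime in `[n, n + k)`
  have h1 : n ≤ n' - 1 := by omega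
  by_cases h2 : n' - 1 - n < k
  · apply (hc (n' - 1 - n) h2).2
    have e : n + (n' - 1 - n) = n' - 1 := by omega
    rwa [e]
  · omega

/-- the first members `n ≤ X` of the maximal runs without assignment -/
noncomputable def fails (X : ℕ) : Finset ℕ := by
  classical
  exact (Finset.Icc 1 X).filter (fun n => ∃ k, MaxRun n k ∧ ¬ Assign n k)

theorem mem_fails {X n : ℕ} : n ∈ fails X ↔ (1 ≤ n ∧ n ≤ X) ∧ ∃ k, MaxRun n k ∧ ¬ Assign n k := by
  classical
  unfold fails
  rw [Finset.mem_filter, Finset.mem_Icc]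

theorem card_fails_le {X K : ℕ} (hK : 1 < K) :
    ((fails X).card : ℝ) ≤ 2 * X / K +
      (((Finset.Ioc 0 (2 * X)).filter (fun m => m ≤ K ^ m.primeFactors.card)).card : ℝ) := by
  classical
  have hex : ∀ n ∈ fails X, ∃ k, MaxRun n k ∧ ¬ Assign n k := fun n hn => (mem_fails.mp hn).2
  choose! len hlen using hex
  set F1 := (fails X).filter (fun n => K < len n) with hF1
  set F2 := (fails X).filter (fun n => ¬ K < len n) with hF2
  have hsplit : (fails X).card = F1.card + F2.card :=
    (Finset.card_filter_add_card_filter_not (fun n => K < len n)).symm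
  -- long runs
  have hlong : F1.card * K ≤ 2 * X := by
    have hdisj : (F1 : Set ℕ).PairwiseDisjoint (fun n => Finset.Ico n (n + len n)) := by
      intro n hn n' hn' hne
      have m1 := (hlen n (Finset.mem_filter.mp hn).1).1
      have m2 := (hlen n' (Finset.mem_filter.mp hn').1).1
      rw [Function.onFun, Finset.disjoint_left]
      intro a ha ha'
      rw [Finset.mem_Ico] at ha ha'
      rcases lt_or_gt_of_ne hne with h | h
      · have := m1.disj m2 h; omega
      · have := m2.disj m1 h; omega
    have hU : F1.biUnion (fun n => Finset.Ico n (n + len n)) ⊆ Finset.Ioc 0 (2 * X) := by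
      intro a ha
      obtain ⟨n, hn, hna⟩ := Finset.mem_biUnion.mp ha
      have hn' := (Finset.mem_filter.mp hn).1
      have hm := mem_fails.mp hn'
      have m1 := (hlen n hn').1.le_two_mul
      rw [Finset.mem_Ico] at hna
      rw [Finset.mem_Ioc]
      omega
    have h1 := Finset.card_le_card hU
    rw [Finset.card_biUnion hdisj, Nat.card_Ioc] at h1
    calc F1.card * K = ∑ _n ∈ F1, K := by rw [Finset.sum_const, smul_eq_mul]
      _ ≤ ∑ n ∈ F1, (Finset.Ico n (n + len n)).card := by
          apply Finset.sum_le_sum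
          intro n hn
          have := (Finset.mem_filter.mp hn).2
          rw [Nat.card_Ico]
          omega
      _ ≤ 2 * X - 0 := h1
      _ = 2 * X := by omega
  -- short runs
  have hshort : F2.card ≤
      ((Finset.Ioc 0 (2 * X)).filter (fun m => m ≤ K ^ m.primeFactors.card)).card := by
    have hb : ∀ n ∈ F2, ∃ i < len n, n + i ≤ K ^ (n + i).primeFactors.card := by
      intro n hn
      obtain ⟨hn1, hn2⟩ := Finset.mem_filter.mp hn
      have hm := mem_fails.mp hn1
      exact exists_powersmooth hm.1.1 (not_lt.mp hn2) hK (hlen n hn1).2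
    choose! i hi using hb
    apply Finset.card_le_card_of_injOn (fun n => n + i n)
    · intro n hn
      have hn' : n ∈ F2 := hn
      obtain ⟨hn1, hn2⟩ := Finset.mem_filter.mp hn'
      have hm := mem_fails.mp hn1
      have m1 := (hlen n hn1).1.le_two_mul
      have m2 := (hi n hn').1
      simp only [Finset.coe_filter, Set.mem_setOf_eq, Finset.mem_Ioc]
      exact ⟨⟨by omega, by omega⟩, (hi n hn').2⟩
    · intro n hn n' hn' heq
      have hn1 : n ∈ F2 := hn
      have hn1' : n' ∈ F2 := hn'
      have m1 := (hlen n (Finset.mem_filter.mp hn1).1).1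
      have m2 := (hlen n' (Finset.mem_filter.mp hn1').1).1
      have j1 := (hi n hn1).1
      have j2 := (hi n' hn1').1
      simp only at heq
      by_contra hne
      rcases lt_or_gt_of_ne hne with h | h
      · have := m1.disj m2 h; omega
      · have := m2.disj m1 h; omega
  have hK0 : (0 : ℝ) < K := by exact_mod_cast (by omega : 0 < K)
  have hl : (F1.card : ℝ) ≤ 2 * X / K := by
    rw [le_div_iff₀ hK0]
    exact_mod_cast hlong
  have hs : (F2.card : ℝ) ≤
      (((Finset.Ioc 0 (2 * X)).filter (fun m => m ≤ K ^ m.primeFactors.card)).card : ℝ) := by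
    exact_mod_cast hshort
  rw [hsplit]
  push_cast
  linarith

theorem card_powersmooth_le {X K r y : ℕ} (hX : 1 ≤ X) (hK : 1 < K) (hy : K ^ r ≤ y) :
    (((Finset.Ioc 0 (2 * X)).filter (fun m => m ≤ K ^ m.primeFactors.card)).card : ℝ) ≤
      y + 2 * X * ((Real.log (Real.log ((2 * X : ℕ) : ℝ)) + 3.4) ^ r / (r.factorial : ℝ)) := by
  classical
  have hsub : (Finset.Ioc 0 (2 * X)).filter (fun m => m ≤ K ^ m.primeFactors.card) ⊆
      Finset.Ioc 0 y ∪ (Finset.Ioc 0 (2 * X)).filter (fun m => r ≤ m.primeFactors.card) := by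
    intro m hm
    rw [Finset.mem_filter, Finset.mem_Ioc] at hm
    obtain ⟨⟨h0, h1⟩, h2⟩ := hm
    rw [Finset.mem_union, Finset.mem_Ioc, Finset.mem_filter, Finset.mem_Ioc]
    by_cases hmy : m ≤ y
    · exact Or.inl ⟨h0, hmy⟩
    · right
      refine ⟨⟨h0, h1⟩, ?_⟩
      by_contra hlt
      push Not at hlt
      have : K ^ m.primeFactors.card ≤ K ^ r := Nat.pow_le_pow_right (by omega) hlt.le
      omega
  have h1 := (Finset.card_le_card hsub).trans (Finset.card_union_le _ _)
  rw [Nat.card_Ioc] at h1
  have h2 := card_omega_ge (X := 2 * X) (by omega) r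
  have h3 : (((Finset.Ioc 0 (2 * X)).filter (fun m => m ≤ K ^ m.primeFactors.card)).card : ℝ) ≤
      y + (((Finset.Ioc 0 (2 * X)).filter (fun m => r ≤ m.primeFactors.card)).card : ℝ) := by
    exact_mod_cast h1
  refine h3.trans ?_
  push_cast at h2 ⊢
  linarith

end Pool.Agent.Helper52.Grimm
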